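import Pool.Agent.Helper162.Arc.PA
import Pool.Agent.Helper300.Cont

set_option autoImplicit false

open Set Topology

namespace Pool.Agent.Results.MP_3d59a4_gt.PseudoArcSquare

/-- A subcontinuum of a (metric) space: a nonempty compact connected subset. -/
def IsSubcontinuum {X : Type} [TopologicalSpace X] (K : Set X) : Prop :=
  IsCompact K ∧ IsConnected K

/-- `K` is decomposable: it is the union of two subcontinua, both different from `K`. -/
def IsDecomposable {X : Type} [TopologicalSpace X] (K : Set X) : Prop :=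
  ∃ A B : Set X, IsSubcontinuum A ∧ IsSubcontinuum B ∧ A ≠ K ∧ B ≠ K ∧ A ∪ B = K

/-- Every nondegenerate subcontinuum of `K` is decomposable. -/
def HereditarilyDecomposable {X : Type} [TopologicalSpace X] (K : Set X) : Prop :=
  ∀ L : Set X, L ⊆ K → IsSubcontinuum L → L.Nontrivial → IsDecomposable L

/-- A continuous map sends a hereditarily decomposable continuum to a point, or to a decomposable
continuum. -/
theorem image_subsingleton {X Y : Type} [TopologicalSpace X] [TopologicalSpace Y] [T2Space X]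
    [T2Space Y] {f : X → Y} (hf : Continuous f) {K : Set X} (hK : IsSubcontinuum K)
    (hd : HereditarilyDecomposable K) (hY : ¬ IsDecomposable (f '' K)) :
    (f '' K).Subsingleton := by
  by_contra hcon
  rw [not_subsingleton_iff] at hcon
  obtain ⟨L, hLK, hL⟩ := zorn_superset_nonempty
    {L : Set X | IsSubcontinuum L ∧ f '' K ⊆ f '' L}
    (by
      intro c hc hchain hne
      obtain ⟨s0, hs0⟩ := hne
      have hcl : ∀ s ∈ c, IsClosed s := fun s hs => (hc hs).1.1.isClosed
      have hcomp : IsCompact (⋂₀ c) :=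
        (hc hs0).1.1.of_isClosed_subset (isClosed_sInter hcl) (sInter_subset_of_mem hs0)
      have hne : ∀ y ∈ f '' K, ∃ x ∈ ⋂₀ c, f x = y := by
        intro y hy
        have : Nonempty c := ⟨⟨s0, hs0⟩⟩
        obtain ⟨x, hx⟩ := IsCompact.nonempty_iInter_of_directed_nonempty_isCompact_isClosed
          (fun s : c => (s : Set X) ∩ f ⁻¹' {y})
          (by
            intro a b
            rcases hchain.total a.2 b.2 with h | h
            · exact ⟨a, Subset.rfl, inter_subset_inter_left _ h⟩
            · exact ⟨b, inter_subset_inter_left _ h, Subset.rfl⟩)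
          (by
            intro s
            obtain ⟨x, hx, hxy⟩ := (hc s.2).2 hy
            exact ⟨x, hx, hxy⟩)
          (fun s => (hc s.2).1.1.inter_right (isClosed_singleton.preimage hf))
          (fun s => (hcl s s.2).inter (isClosed_singleton.preimage hf))
        rw [mem_iInter] at hx
        exact ⟨x, mem_sInter.2 fun s hs => (hx ⟨s, hs⟩).1, (hx ⟨s0, hs0⟩).2⟩
      refine ⟨⋂₀ c, ⟨⟨hcomp, ?_, ?_⟩, ?_⟩, fun s hs => sInter_subset_of_mem hs⟩
      · obtain ⟨y, hy⟩ := hcon.nonempty
        obtain ⟨x, hx, -⟩ := hne y hy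
        exact ⟨x, hx⟩
      · exact Pool.Agent.Helper300.Cont.isPreconnected_sInter hchain ⟨s0, hs0⟩
          (fun s hs => (hc hs).1.1) (fun s hs => (hc hs).1.2.isPreconnected)
      · intro y hy
        obtain ⟨x, hx, hxy⟩ := hne y hy
        exact ⟨x, hx, hxy⟩)
    K ⟨hK, Subset.rfl⟩
  have hfL : f '' L = f '' K := Subset.antisymm (image_mono hLK) hL.prop.2
  have hLn : L.Nontrivial := by
    obtain ⟨a, ha, b, hb, hab⟩ := hcon
    rw [← hfL] at ha hb
    obtain ⟨x, hx, rfl⟩ := ha
    obtain ⟨y, hy, rfl⟩ := hb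
    exact ⟨x, hx, y, hy, fun h => hab (congrArg f h)⟩
  obtain ⟨A, B, hA, hB, hAL, hBL, hAB⟩ := hd L hLK hL.prop.1 hLn
  have hsub : ∀ C : Set X, C ⊆ L → IsSubcontinuum C → f '' K ⊆ f '' C → C = L :=
    fun C hC hCc h => Subset.antisymm hC (hL.le_of_le ⟨hCc, h⟩ hC)
  apply hY
  refine ⟨f '' A, f '' B, ⟨hA.1.image hf, hA.2.image f hf.continuousOn⟩,
    ⟨hB.1.image hf, hB.2.image f hf.continuousOn⟩, ?_, ?_, ?_⟩
  · intro h
    exact hAL (hsub A (hAB ▸ subset_union_left) hA h.ge)
  · intro h
    exact hBL (hsub B (hAB ▸ subset_union_right) hB h.ge)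
  · rw [← image_union, hAB, hfL]

/-- There are nondegenerate metric continua `X`, `Y` such that no hereditarily decomposable
subcontinuum of `X × Y` contains two distinct points. -/
theorem result :
    ∃ (X Y : Type) (_ : MetricSpace X) (_ : MetricSpace Y),
      CompactSpace X ∧ ConnectedSpace X ∧ Nontrivial X ∧
      CompactSpace Y ∧ ConnectedSpace Y ∧ Nontrivial Y ∧
      ∀ p q : X × Y, p ≠ q →
        ¬ ∃ K : Set (X × Y), IsSubcontinuum K ∧ HereditarilyDecomposable K ∧ p ∈ K ∧ q ∈ K := by
  refine ⟨Pool.Agent.Helper162.Arc.PA, Pool.Agent.Helper162.Arc.PA,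
    TopologicalSpace.metrizableSpaceMetric Pool.Agent.Helper162.Arc.PA,
    TopologicalSpace.metrizableSpaceMetric Pool.Agent.Helper162.Arc.PA,
    inferInstance, inferInstance, inferInstance, inferInstance, inferInstance, inferInstance, ?_⟩
  rintro p q hpq ⟨K, hK, hd, hp, hq⟩
  have hi : ∀ C : Set Pool.Agent.Helper162.Arc.PA, IsSubcontinuum C → ¬ IsDecomposable C := by
    rintro C hC ⟨A, B, hA, hB, hAK, hBK, hAB⟩
    exact Pool.Agent.Helper162.Arc.pa_hi hC ⟨A, B, hA, hB, hAB ▸ subset_union_left,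
      hAB ▸ subset_union_right, hAK, hBK, hAB⟩
  have h1 := image_subsingleton continuous_fst hK hd
    (hi _ ⟨hK.1.image continuous_fst, hK.2.image _ continuous_fst.continuousOn⟩)
  have h2 := image_subsingleton continuous_snd hK hd
    (hi _ ⟨hK.1.image continuous_snd, hK.2.image _ continuous_snd.continuousOn⟩)
  exact hpq (Prod.ext (h1 ⟨p, hp, rfl⟩ ⟨q, hq, rfl⟩) (h2 ⟨p, hp, rfl⟩ ⟨q, hq, rfl⟩))

end Pool.Agent.Results.MP_3d59a4_gt.PseudoArcSquare
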